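import Pool.Agent.H372R3.PM4

/-! The flag upper bound conjecture of Adamaszek and Hladky fails for pseudomanifolds, in every
dimension `2m - 1` with `m ≥ 2`, for every large number of vertices, and by an unbounded factor. -/

set_option autoImplicit false

namespace Pool.Agent.Results.MP_383f58_co.FlagPseudoUpper

open Finset Pool.Agent.H372R3

theorem exists_balanced (m n : ℕ) (hm : 1 ≤ m) : ∃ a : Fin m → ℕ, IsBalanced m n a := by
  refine ⟨fun i => n / m + if (i : ℕ) < n % m then 1 else 0, ?_, ?_⟩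
  · intro i
    have hfl : ⌊(n : ℚ) / m⌋₊ = n / m := Nat.floor_div_eq_div n m
    by_cases h : (i : ℕ) < n % m
    · right
      simp only [h, if_true]
      symm
      rw [Nat.ceil_eq_iff (by omega)]
      have hm0 : (0 : ℚ) < m := by exact_mod_cast (by omega : 0 < m)
      have hmod : m * (n / m) + n % m = n := Nat.div_add_mod n m
      have hlt : n % m < m := Nat.mod_lt _ (by omega)
      constructor
      · rw [lt_div_iff₀ hm0]
        have : (n / m + 1 - 1) * m < n := by
          rw [Nat.add_sub_cancel, mul_comm]; omega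
        exact_mod_cast this
      · rw [div_le_iff₀ hm0]
        have : n ≤ (n / m + 1) * m := by
          have : (n / m + 1) * m = m * (n / m) + m := by ring
          omega
        exact_mod_cast this
    · left
      simp only [h, if_false, hfl, add_zero]
  · rw [Finset.sum_add_distrib]
    have hlt : n % m < m := Nat.mod_lt _ (by omega)
    have h1 : ∑ i : Fin m, (if (i : ℕ) < n % m then 1 else 0) = n % m := by
      rw [Fin.sum_univ_eq_sum_range (fun i => if i < n % m then 1 else 0) m, Finset.sum_boole]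
      have : Finset.filter (fun x => x < n % m) (Finset.range m) = Finset.range (n % m) := by
        ext x; simp only [Finset.mem_filter, Finset.mem_range]; omega
      rw [this]; simp
    rw [h1]
    simp only [Finset.sum_const, Finset.card_univ, Fintype.card_fin, smul_eq_mul]
    exact Nat.div_add_mod n m

theorem bern (m : ℕ) (j : ℕ) : m ^ (j + 2) + (j + 2) * m ^ (j + 1) + 1 ≤ (m + 1) ^ (j + 2) := by
  induction j with
  | zero => simp; nlinarith
  | succ j ih =>
    have h1 : (m + 1) ^ (j + 1 + 2) = (m + 1) ^ (j + 2) * (m + 1) := by ring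
    have h2 : (m ^ (j + 2) + (j + 2) * m ^ (j + 1) + 1) * (m + 1) ≤ (m + 1) ^ (j + 2) * (m + 1) :=
      Nat.mul_le_mul_right _ ih
    rw [h1]
    refine le_trans ?_ h2
    have h3 : (m ^ (j + 2) + (j + 2) * m ^ (j + 1) + 1) * (m + 1) =
      m ^ (j + 1 + 2) + (j + 1 + 2) * m ^ (j + 1 + 1) + 1 + (m + (j + 2) * m ^ (j + 1)) := by ring
    rw [h3]
    exact Nat.le_add_right _ _

theorem two_pow_le_fact (j : ℕ) : 2 ^ j ≤ (j + 1).factorial := by
  induction j with
  | zero => simp
  | succ j ih =>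
    rw [pow_succ, Nat.factorial_succ]
    nlinarith [Nat.factorial_pos (j + 1)]

theorem factorial_gt (m : ℕ) (hm : 2 ≤ m) : (2 * m) ^ m < (2 * m).factorial := by
  obtain ⟨j, rfl⟩ : ∃ j, m = j + 2 := ⟨m - 2, by omega⟩
  have h1 := bern (j + 2) j
  have h2 := two_pow_le_fact (j + 1)
  have h3 := @Nat.factorial_mul_pow_le_factorial (j + 2) (j + 2)
  rw [← two_mul] at h3
  refine lt_of_lt_of_le ?_ h3
  calc (2 * (j + 2)) ^ (j + 2) = 2 ^ (j + 1) * ((j + 2) ^ (j + 2) + (j + 2) * (j + 2) ^ (j + 1)) := by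
        rw [mul_pow]; ring
    _ < 2 ^ (j + 1) * (j + 2 + 1) ^ (j + 2) := by
        apply Nat.mul_lt_mul_of_pos_left (by omega) (by positivity)
    _ ≤ (j + 2).factorial * (j + 2 + 1) ^ (j + 2) := Nat.mul_le_mul_right _ h2

theorem pm_inst {V : Type*} (i1 i2 : DecidableEq V) {D : ℕ} {G : SimpleGraph V}
    (h : @PM V i1 D G) : @PM V i2 D G := by
  have h2 : i1 = i2 := Subsingleton.elim i1 i2
  subst h2
  exact h

theorem result (m : ℕ) (hm : 2 ≤ m) (C : ℕ) : ∃ n₀ : ℕ, ∀ n ≥ n₀,
    (∃ a : Fin m → ℕ, IsBalanced m n a) ∧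
    ∃ (V : Type) (_ : Fintype V) (K : AbstractSimplicialComplex V),
      Fintype.card V = n ∧ IsFlag K ∧ IsPseudomanifold (2 * m - 1) K ∧
      ∀ a : Fin m → ℕ, IsBalanced m n a →
        C * faceNum (joinOfCycles a) (2 * m - 1) < faceNum K (2 * m - 1) := by
  classical
  -- exponential growth
  obtain ⟨k₀, hk₀⟩ : ∃ k₀ : ℕ, ∀ k ≥ k₀,
      C * (17 * m) ^ m * ((2 * m) ^ m) ^ k < ((2 * m).factorial) ^ k := by
    have hA : (0 : ℝ) < (((2 * m) ^ m : ℕ) : ℝ) := by
      have : 0 < (2 * m) ^ m := by positivity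
      exact_mod_cast this
    have hB : (1 : ℝ) < (((2 * m).factorial : ℕ) : ℝ) / (((2 * m) ^ m : ℕ) : ℝ) := by
      rw [one_lt_div hA]
      exact_mod_cast factorial_gt m hm
    have ht := tendsto_pow_atTop_atTop_of_one_lt hB
    obtain ⟨k₀, hk⟩ := Filter.eventually_atTop.1 (ht.eventually_gt_atTop ((C * (17 * m) ^ m : ℕ) : ℝ))
    refine ⟨k₀, fun k hk2 => ?_⟩
    have := hk k hk2
    rw [div_pow, lt_div_iff₀ (by positivity)] at this
    exact_mod_cast this
  refine ⟨4 * m * (2 * m) ^ k₀ + 4 * m, fun n hn => ⟨exists_balanced m n (by omega), ?_⟩⟩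
  -- choose k
  have hex : ∃ k, n < 4 * m * (2 * m) ^ k + 4 * m := by
    refine ⟨n, ?_⟩
    have h1 : n < (2 * m) ^ n := Nat.lt_pow_self (by omega)
    have h2 : (2 * m) ^ n ≤ 4 * m * (2 * m) ^ n := Nat.le_mul_of_pos_left _ (by omega)
    omega
  have hfind := Nat.find_spec hex
  have hmin := fun j => Nat.find_min hex (m := j)
  obtain ⟨k, hk⟩ : ∃ k, Nat.find hex = k + 1 := by
    refine ⟨Nat.find hex - 1, ?_⟩
    have : Nat.find hex ≠ 0 := by
      intro h0
      rw [h0] at hfind
      have h1 : 1 ≤ (2 * m) ^ k₀ := Nat.one_le_pow _ _ (by omega)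
      have h2 : 4 * m * (2 * m) ^ 0 ≤ 4 * m * (2 * m) ^ k₀ := by
        apply Nat.mul_le_mul_left
        simpa using h1
      omega
    omega
  rw [hk] at hfind
  have hk1 : 4 * m * (2 * m) ^ k + 4 * m ≤ n := by
    have := hmin k (by omega)
    omega
  have hkk : k₀ ≤ k := by
    by_contra hcon
    push Not at hcon
    have h1 : (2 * m) ^ (k + 1) ≤ (2 * m) ^ k₀ := Nat.pow_le_pow_right (by omega) (by omega)
    have h2 : 4 * m * (2 * m) ^ (k + 1) ≤ 4 * m * (2 * m) ^ k₀ := Nat.mul_le_mul_left _ h1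
    omega
  -- the complex
  obtain ⟨r, hr⟩ : ∃ r, r = n - 4 * m * (2 * m) ^ k - 2 * (2 * m - 2) := ⟨_, rfl⟩
  have hr4 : 4 ≤ r := by omega
  have : NeZero r := ⟨by omega⟩
  have : NeZero (2 * m) := ⟨by omega⟩
  let H := joinG (cyc r) (board (2 * m - 2) 0)
  have hH : PM (2 * m) H := by
    have := (cyc_PM hr4).join (board_PM (2 * m - 2) 0)
    rwa [show 2 + (2 * m - 2) = 2 * m by omega] at this
  have hG : PM (2 * m) (board (2 * m) k ⊕g H) := (board_PM (2 * m) k).sum (by omega) hH
  refine ⟨_, inferInstance, cliqueCx (board (2 * m) k ⊕g H), ?_, isFlag_cliqueCx _, ?_, ?_⟩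
  · simp only [Fintype.card_sum, Fintype.card_prod, Fintype.card_fin, Fintype.card_pi,
      Finset.prod_const, Finset.card_univ, Fintype.card_bool, ZMod.card, pow_zero]
    have : 2 * m * ((2 * m) ^ k * 2) = 4 * m * (2 * m) ^ k := by ring
    omega
  · apply isPseudomanifold_cliqueCx (by omega)
    rw [show 2 * m - 1 + 1 = 2 * m by omega]
    exact pm_inst _ _ hG
  · intro a ha
    have hm0 : (0 : ℚ) < m := by exact_mod_cast (by omega : 0 < m)
    have ha0 : ∀ i, a i ≠ 0 := by
      intro i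
      have hpos : 0 < ⌊(n : ℚ) / m⌋₊ := by
        rw [Nat.floor_div_eq_div]
        exact Nat.div_pos (by omega) (by omega)
      have h2 : ⌊(n : ℚ) / m⌋₊ ≤ ⌈(n : ℚ) / m⌉₊ := Nat.floor_le_ceil _
      rcases ha.1 i with h | h <;> omega
    have hale : ∀ i, a i ≤ 17 * m * (2 * m) ^ k := by
      intro i
      have h1 : a i ≤ ⌈(n : ℚ) / m⌉₊ := by
        rcases ha.1 i with h | h
        · rw [h]; exact Nat.floor_le_ceil _
        · exact h.le
      have h2 : ⌈(n : ℚ) / m⌉₊ ≤ 17 * m * (2 * m) ^ k := by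
        rw [Nat.ceil_le, div_le_iff₀ hm0]
        have h3 : n ≤ 17 * m * (2 * m) ^ k * m := by
          have h4 : 4 * m * (2 * m) ^ (k + 1) = 8 * (m * (2 * m) ^ k * m) := by ring
          have h5 : 17 * m * (2 * m) ^ k * m = 17 * (m * (2 * m) ^ k * m) := by ring
          have h6 : m ≤ m * (2 * m) ^ k * m := by
            have : 1 ≤ m * (2 * m) ^ k := Nat.mul_pos (by omega) (by positivity)
            nlinarith
          omega
        exact_mod_cast h3
      exact h1.trans h2
    have hprod : ∏ i, a i ≤ (17 * m) ^ m * ((2 * m) ^ m) ^ k := by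
      calc ∏ i, a i ≤ ∏ i : Fin m, (17 * m * (2 * m) ^ k) := Finset.prod_le_prod' (fun i _ => hale i)
        _ = (17 * m) ^ m * ((2 * m) ^ m) ^ k := by
          rw [Finset.prod_const, Finset.card_univ, Fintype.card_fin, mul_pow, ← pow_mul, ← pow_mul,
            mul_comm k m]
    have h1 := faceNum_joinOfCycles_le (by omega) a ha0
    have h2 := board_facets (D := 2 * m) (k := k) (by omega) H
    calc C * faceNum (joinOfCycles a) (2 * m - 1) ≤ C * ((17 * m) ^ m * ((2 * m) ^ m) ^ k) :=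
          Nat.mul_le_mul_left _ (h1.trans hprod)
      _ = C * (17 * m) ^ m * ((2 * m) ^ m) ^ k := by ring
      _ < ((2 * m).factorial) ^ k := hk₀ k hkk
      _ ≤ ((2 * m).factorial) ^ k * 2 ^ (2 * m) := Nat.le_mul_of_pos_right _ (by positivity)
      _ ≤ _ := h2

end Pool.Agent.Results.MP_383f58_co.FlagPseudoUpper
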